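import Pool.Agent.Helper6.O3.St

set_option autoImplicit false

/-! Project O3, module TR (written by helper62). -/

namespace Pool.Agent.Helper62.O3

open Pool.Agent.Helper6.O3 Filter Topology
open Pool.Agent.Helper99.DF (T TL sq chk Cert ver StVER StTRA StCMP StSND StPR1 StPRC StVP)
open Pool.Agent.Helper4.IL (Inp Sol Std InfLC LC)

theorem sh_pair (a : ℕ → ℚ) (t : ℕ) : (T^[t] (sh a)) 0 = 0 ∧ (T^[t] (sh a)) 1 = 0 :=
  T_pair (c := sh a) (n := 0) (by simp [sh]) (by simp [sh]) t

theorem sh_iter (a : ℕ → ℚ) (t : ℕ) : ∀ k, (T^[t] (sh a)) (k + 2) = (LC^[t] a) k := by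
  induction t with
  | zero =>
    intro k
    simp [sh]
  | succ t ih =>
    intro k
    rw [Function.iterate_succ_apply', Function.iterate_succ_apply']
    have h1 : T (T^[t] (sh a)) (k + 2) = (T^[t] (sh a)) (k + 2) ^ 2 -
        (T^[t] (sh a)) (k + 1) * (T^[t] (sh a)) (k + 1 + 2) := rfl
    have h2 : LC (LC^[t] a) k = (LC^[t] a) k ^ 2 -
        (if k = 0 then 0 else (LC^[t] a) (k - 1)) * (LC^[t] a) (k + 1) := rfl
    rw [h1, h2, ih k, ih (k + 1)]
    congr 2
    rcases Nat.eq_zero_or_pos k with hk | hk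
    · subst hk
      rw [if_pos rfl]
      exact (sh_pair a t).2
    · rw [if_neg hk.ne']
      obtain ⟨j, rfl⟩ : ∃ j, k = j + 1 := ⟨k - 1, by omega⟩
      exact ih j

theorem hTR : StTR := by
  intro a
  constructor
  · intro h t n
    rw [← sh_iter a t n]
    exact h t (n + 2)
  · intro h t k
    rcases k with _ | _ | k
    · exact (sh_pair a t).1.ge
    · exact (sh_pair a t).2.ge
    · have := sh_iter a t k
      rw [this]
      exact h t k

end Pool.Agent.Helper62.O3
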